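import Pool.Agent.W186.DX.Main

set_option autoImplicit false

namespace Pool.Agent.Results.MP_5a4862_nt.DerivativesOfXi

open Pool.Agent.H986R2.K4 (xi)

/-- `xi s = s (s - 1) / 2 * completedRiemannZeta₀ s + 1 / 2` is the Riemann xi function.

Every zero `s` of the `m`-th derivative of `xi` with real part at least `1/2 + ε` and large height is
accompanied by a zero `s'` of the `n`-th derivative with real part at least `Re s - ε` at distance
`O(log |Im s|)` (any `m`, `n`, in either order). Consequently zeta has a zero-free half-plane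
`Re s > θ`, `θ < 1`, if and only if some half-plane `Re s > θ`, `θ < 1`, contains only finitely many
zeros of the `n`-th derivative of `xi`; this holds for every `n`. -/
theorem result :
    (∀ (m n : ℕ) (ε : ℝ), 0 < ε → ∃ K T : ℝ, ∀ s : ℂ, iteratedDeriv m xi s = 0 → 1 / 2 + ε ≤ s.re →
      T ≤ |s.im| → ∃ s' : ℂ, iteratedDeriv n xi s' = 0 ∧ s.re - ε < s'.re ∧
        |s'.im - s.im| ≤ K * Real.log |s.im|) ∧
    ∀ n : ℕ, (∃ θ : ℝ, θ < 1 ∧ ∀ s : ℂ, θ < s.re → riemannZeta s ≠ 0) ↔
      ∃ θ : ℝ, θ < 1 ∧ {s : ℂ | θ < s.re ∧ iteratedDeriv n xi s = 0}.Finite :=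
  Pool.Agent.W186.DX.main

end Pool.Agent.Results.MP_5a4862_nt.DerivativesOfXi
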