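import Pool.Agent.H24R2.JP.JS

set_option autoImplicit false

/-!
# Moments of the Farey displacements in short windows and zero-free half-planes

Let `f_1 < ... < f_A` be the Farey fractions of order `n` in `(0, 1]` and `f_i - i / A` their
displacements.  For every real `p > 0`, every rational `a/b` in `[0, 1)` and every `0 ≤ c < 1` the sum
of `|f_i - i / A| ^ p` over the `f_i` in the short window `(a/b, a/b + κ n^(-c))` has the exact
exponent `1 - p + (1 - c) max (0, 1 - (1 - Θ) p)`, `Θ` the supremum of the real parts of the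
nontrivial zeros of zeta.  So in every such window: zeta has a zero-free half-plane `Re s ≥ σ₀`,
`σ₀ < 1`, if and only if for some `p` the sum is `n ^ (1 - p + o(1))`; and for `1/2 ≤ σ < 1` and
`(1 - σ) p < 1` there is no zero with `Re s > σ` if and only if the sum is at most
`n ^ (1 - p + (1 - c) (1 - (1 - σ) p) + ε)`.

Credits: the exponent formula is proved in the modules `H295R2` and `H452R2` (collected in
`H24R2.JP.JS`).
-/

open Filter Topology

namespace Pool.Agent.Results.MP_5a4862_nt.FareyWindows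

/-- The Farey sequence `F_n`: all rationals `p/q` in `(0, 1]` with `1 ≤ p, q ≤ n`. -/
def farey (n : ℕ) : Finset ℚ :=
  ((Finset.Icc 1 n ×ˢ Finset.Icc 1 n).image (fun p : ℕ × ℕ => (p.1 : ℚ) / (p.2 : ℚ))).filter
    (fun q : ℚ => q ≤ 1)

/-- The `(j+1)`-st term `f_{j+1}` of `F_n` in increasing order, as a real number. -/
noncomputable def term (n : ℕ) (j : Fin (farey n).card) : ℝ :=
  (((farey n).orderEmbOfFin rfl j : ℚ) : ℝ)

/-- The sum of `|f_i - i / A| ^ p`, `A` the number of Farey fractions of order `n`, over the indices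
`i = j + 1` with `x < f_i < y`. -/
noncomputable def windowPow (p : ℝ) (n : ℕ) (x y : ℝ) : ℝ :=
  ∑ j : Fin (farey n).card,
    if x < term n j ∧ term n j < y then |term n j - ((j : ℕ) + 1 : ℝ) / ((farey n).card : ℝ)| ^ p
    else 0

/-- `Θ`: the supremum of the real parts of the zeros of zeta in the critical strip. -/
noncomputable def Theta : ℝ :=
  sSup (Complex.re '' {s : ℂ | riemannZeta s = 0 ∧ 0 < s.re ∧ s.re < 1})

theorem half_le : 1 / 2 ≤ Theta := Pool.Agent.H295R2.half_le_zetaSup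

theorem bdd : BddAbove (Complex.re '' {s : ℂ | riemannZeta s = 0 ∧ 0 < s.re ∧ s.re < 1}) := by
  refine ⟨1, ?_⟩
  rintro x ⟨s, hs, rfl⟩
  exact hs.2.2.le

theorem zero_free_iff {σ : ℝ} (h0 : 0 ≤ σ) :
    (∀ s : ℂ, σ < s.re → riemannZeta s ≠ 0) ↔ Theta ≤ σ := by
  constructor
  · intro h
    refine Real.sSup_le ?_ h0
    rintro x ⟨s, ⟨hs, h1, h2⟩, rfl⟩
    by_contra hcon
    exact h s (not_le.1 hcon) hs
  · intro h s hs hz
    have hlt : s.re < 1 := by
      by_contra hcon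
      exact riemannZeta_ne_zero_of_one_le_re (not_lt.mp hcon) hz
    have h2 : s.re ≤ Theta := le_csSup bdd ⟨s, ⟨hz, by linarith, hlt⟩, rfl⟩
    linarith

theorem half_plane_iff :
    (∃ σ₀ : ℝ, 1 / 2 < σ₀ ∧ σ₀ < 1 ∧ ∀ s : ℂ, σ₀ ≤ s.re → riemannZeta s ≠ 0) ↔ Theta < 1 := by
  have hΘ := half_le
  constructor
  · rintro ⟨σ₀, h1, h2, h3⟩
    have h4 := (zero_free_iff (show 0 ≤ σ₀ by linarith)).1 fun s hs => h3 s hs.le
    linarith
  · intro h
    refine ⟨(Theta + 1) / 2, by linarith, by linarith, fun s hs => ?_⟩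
    exact (zero_free_iff (show 0 ≤ Theta by linarith)).2 le_rfl s (by linarith)

theorem windowPow_nonneg (p : ℝ) (n : ℕ) (x y : ℝ) : 0 ≤ windowPow p n x y := by
  unfold windowPow
  refine Finset.sum_nonneg fun j _ => ?_
  split_ifs
  exacts [Real.rpow_nonneg (abs_nonneg _) _, le_rfl]

/-- **Exponent formula.** -/
theorem exponent (p : ℝ) (hp : 0 < p) (a b : ℕ) (hab : a < b) (hco : Nat.Coprime a b) (c κ : ℝ)
    (hc : 0 ≤ c) (hc1 : c < 1) (hκ : 0 < κ) :
    Tendsto
      (fun n : ℕ => Real.log (windowPow p n ((a : ℝ) / b) ((a : ℝ) / b + κ * (n : ℝ) ^ (-c))) /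
        Real.log n)
      atTop (𝓝 (1 - p + (1 - c) * max 0 (1 - (1 - Theta) * p))) :=
  Pool.Agent.H24R2.JP.JS.result p hp a b hab hco c κ hc hc1 hκ

theorem windowPow_pos (p : ℝ) (hp : 0 < p) (a b : ℕ) (hab : a < b) (hco : Nat.Coprime a b)
    (c κ : ℝ) (hc1 : c < 1) (hκ : 0 < κ) :
    ∀ᶠ n : ℕ in atTop, 0 < windowPow p n ((a : ℝ) / b) ((a : ℝ) / b + κ * (n : ℝ) ^ (-c)) := by
  have h : ∀ᶠ n : ℕ in atTop, (n : ℝ) ^ (1 - p - 1) ≤
      windowPow p n ((a : ℝ) / b) ((a : ℝ) / b + κ * (n : ℝ) ^ (-c)) :=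
    Pool.Agent.H295R2.win_lower_spike hab hco hp.le hc1 hκ one_pos
  filter_upwards [h, eventually_ge_atTop 1] with n h1 hn
  have hn2 : (0 : ℝ) < n := by exact_mod_cast hn
  exact lt_of_lt_of_le (by positivity) h1

theorem bound_of_tendsto {f : ℕ → ℝ} (hf : ∀ n, 0 ≤ f n) {E r : ℝ}
    (h : Tendsto (fun n : ℕ => Real.log (f n) / Real.log n) atTop (𝓝 E)) (hr : E < r) :
    ∀ᶠ n : ℕ in atTop, f n ≤ (n : ℝ) ^ r := by
  filter_upwards [(tendsto_order.mp h).2 r hr, eventually_ge_atTop 2] with n h1 hn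
  have hn2 : (1 : ℝ) < n := by exact_mod_cast hn
  have hlog : 0 < Real.log n := Real.log_pos hn2
  have hpos : 0 < (n : ℝ) ^ r := by positivity
  rcases (hf n).eq_or_lt with h0 | h0
  · rw [← h0]; exact hpos.le
  · rw [div_lt_iff₀ hlog] at h1
    refine ((Real.log_lt_log_iff h0 hpos).1 ?_).le
    rwa [Real.log_rpow (by positivity)]

theorem le_of_bound {f : ℕ → ℝ} {E r : ℝ}
    (h : Tendsto (fun n : ℕ => Real.log (f n) / Real.log n) atTop (𝓝 E))
    (hf : ∀ᶠ n : ℕ in atTop, 0 < f n)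
    (hb : ∀ᶠ n : ℕ in atTop, f n ≤ (n : ℝ) ^ r) : E ≤ r := by
  refine le_of_tendsto h ?_
  filter_upwards [hb, hf, eventually_ge_atTop 2] with n h1 h0 hn
  have hn2 : (1 : ℝ) < n := by exact_mod_cast hn
  have hlog : 0 < Real.log n := Real.log_pos hn2
  rw [div_le_iff₀ hlog, ← Real.log_rpow (by positivity)]
  exact Real.log_le_log h0 h1

theorem result (a b : ℕ) (hab : a < b) (hco : Nat.Coprime a b) (c κ : ℝ)
    (hc : 0 ≤ c) (hc1 : c < 1) (hκ : 0 < κ) :
    (∀ p : ℝ, 0 < p → Tendsto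
      (fun n : ℕ => Real.log (windowPow p n ((a : ℝ) / b) ((a : ℝ) / b + κ * (n : ℝ) ^ (-c))) /
        Real.log n)
      atTop (𝓝 (1 - p + (1 - c) * max 0 (1 - (1 - Theta) * p)))) ∧
    ((∃ σ₀ : ℝ, 1 / 2 < σ₀ ∧ σ₀ < 1 ∧ ∀ s : ℂ, σ₀ ≤ s.re → riemannZeta s ≠ 0) ↔
      ∃ p : ℝ, 0 < p ∧ ∀ ε : ℝ, 0 < ε → ∀ᶠ n : ℕ in atTop,
        windowPow p n ((a : ℝ) / b) ((a : ℝ) / b + κ * (n : ℝ) ^ (-c)) ≤ (n : ℝ) ^ (1 - p + ε)) ∧
    (∀ σ : ℝ, 1 / 2 ≤ σ → σ < 1 → ∀ p : ℝ, 0 < p → (1 - σ) * p < 1 →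
      ((∀ s : ℂ, σ < s.re → riemannZeta s ≠ 0) ↔ ∀ ε : ℝ, 0 < ε → ∀ᶠ n : ℕ in atTop,
        windowPow p n ((a : ℝ) / b) ((a : ℝ) / b + κ * (n : ℝ) ^ (-c)) ≤
          (n : ℝ) ^ (1 - p + (1 - c) * (1 - (1 - σ) * p) + ε))) := by
  have hΘ := half_le
  refine ⟨fun p hp => exponent p hp a b hab hco c κ hc hc1 hκ, ?_, ?_⟩
  · rw [half_plane_iff]
    constructor
    · intro hT
      have hT1 : 0 < 1 - Theta := by linarith
      refine ⟨1 / (1 - Theta), by positivity, fun ε hε => ?_⟩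
      have hE := exponent (1 / (1 - Theta)) (by positivity) a b hab hco c κ hc hc1 hκ
      have e : 1 - (1 - Theta) * (1 / (1 - Theta)) = 0 := by field_simp; ring
      rw [e, max_self, mul_zero, add_zero] at hE
      exact bound_of_tendsto (fun n => windowPow_nonneg _ _ _ _) hE (by linarith)
    · rintro ⟨p, hp, h⟩
      have hE := exponent p hp a b hab hco c κ hc hc1 hκ
      have h1 : ∀ ε : ℝ, 0 < ε →
          1 - p + (1 - c) * max 0 (1 - (1 - Theta) * p) ≤ 1 - p + ε :=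
        fun ε hε => le_of_bound hE (windowPow_pos p hp a b hab hco c κ hc1 hκ) (h ε hε)
      have h2 : 1 - p + (1 - c) * max 0 (1 - (1 - Theta) * p) ≤ 1 - p := le_of_forall_pos_le_add h1
      by_contra hcon
      push Not at hcon
      have h3 : 1 ≤ max 0 (1 - (1 - Theta) * p) := by
        refine le_max_of_le_right ?_
        nlinarith
      nlinarith
  · intro σ hσ hσ1 p hp hσp
    rw [zero_free_iff (show 0 ≤ σ by linarith)]
    have hE := exponent p hp a b hab hco c κ hc hc1 hκ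
    constructor
    · intro hT ε hε
      refine bound_of_tendsto (fun n => windowPow_nonneg _ _ _ _) hE ?_
      have h1 : max 0 (1 - (1 - Theta) * p) ≤ 1 - (1 - σ) * p := by
        refine max_le (by linarith) ?_
        nlinarith
      nlinarith
    · intro h
      have h1 : ∀ ε : ℝ, 0 < ε → 1 - p + (1 - c) * max 0 (1 - (1 - Theta) * p) ≤
          1 - p + (1 - c) * (1 - (1 - σ) * p) + ε :=
        fun ε hε => le_of_bound hE (windowPow_pos p hp a b hab hco c κ hc1 hκ) (h ε hε)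
      have h2 : 1 - p + (1 - c) * max 0 (1 - (1 - Theta) * p) ≤
          1 - p + (1 - c) * (1 - (1 - σ) * p) := le_of_forall_pos_le_add h1
      have h3 : (1 - c) * max 0 (1 - (1 - Theta) * p) ≤ (1 - c) * (1 - (1 - σ) * p) := by linarith
      have h4 : max 0 (1 - (1 - Theta) * p) ≤ 1 - (1 - σ) * p :=
        le_of_mul_le_mul_left h3 (by linarith)
      have h5 : 1 - (1 - Theta) * p ≤ 1 - (1 - σ) * p := (le_max_right _ _).trans h4
      by_contra hcon
      push Not at hcon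
      nlinarith

end Pool.Agent.Results.MP_5a4862_nt.FareyWindows
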