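import Pool.Agent.W186.SX.Fin

set_option autoImplicit false

/-!
# MP_5a4862_nt: zeros of sums of shifts of the Riemann xi function

For a sum `xi s + Σ a_j xi (s - g_j)` of horizontal shifts of the Riemann xi function, with complex
coefficients and `0 < g_j ≤ 2θ - 1`, the asymptotic right edge of the zeros is at `θ` or to the left
of it if and only if the same is true for zeta, for every `θ` in `[1/2 + 2μ, 1]`, where `μ` is any
growth exponent of zeta on the critical line (an absolute `μ < 1/4` is proved below). In particular zeta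
has a zero-free half-plane `Re s > θ`, `θ < 1`, if and only if one (equivalently every) such sum with
shifts `0 < g_j < 1` has only finitely many zeros in some half-plane `Re s > θ`, `θ < 1`; and if and
only if for some `0 < h < 1/2` all but finitely many zeros of `xi (s + h) + c xi (s - h)` are on the
critical line (`|c| = 1` fixed).

Proof. Forward: to the right of its last zeros the logarithmic derivative of `xi` is
`(1 + o(1)) (log T) / 2`, so the unshifted term dominates. Backward: let `y1` be the true edge of zeta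
(all in the variable `z = s - 1/2`) and suppose that the sum has no zeros to the right of `y < y1`. A
Borel-Caratheodory argument gives the expected size of the sum there. Convexity between the
critical line (exponent below the convexity bound) and the line `y1` shows that the shifted terms are
smaller by a power of `T` on the whole segment near `y1`. So `xi` has no zeros near `y1`.
-/

namespace Pool.Agent.Results.MP_5a4862_nt.ShiftedXi

/-- The Riemann xi function `s (s - 1) π ^ (- s / 2) Γ (s / 2) ζ (s) / 2`, an entire function. -/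
noncomputable def xi (s : ℂ) : ℂ := s * (s - 1) / 2 * completedRiemannZeta₀ s + 1 / 2

/-- `ζ (1/2 + i t) = O(|t| ^ μ)`. -/
def Growth (μ : ℝ) : Prop :=
  ∃ C : ℝ, ∀ t : ℝ, 1 ≤ |t| → ‖riemannZeta (1 / 2 + t * Complex.I)‖ ≤ C * |t| ^ μ

/-- For every `ε > 0` the function `f` has only finitely many zeros with real part `> θ + ε`. -/
def EdgeAt (f : ℂ → ℂ) (θ : ℝ) : Prop := ∀ ε : ℝ, 0 < ε → {s : ℂ | θ + ε < s.re ∧ f s = 0}.Finite

/-- The sum `xi s + Σ a_j xi (s - g_j)`. -/
noncomputable def comb {n : ℕ} (a : Fin n → ℂ) (g : Fin n → ℝ) (s : ℂ) : ℂ := xi s + ∑ j, a j * xi (s - g j)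

/-- All but finitely many zeros of `xi (s + h) + c xi (s - h)` have real part `1/2`. -/
def OnLine (c : ℂ) (h : ℝ) : Prop := {s : ℂ | s.re ≠ 1 / 2 ∧ xi (s + h) + c * xi (s - h) = 0}.Finite

theorem result :
    (∃ μ : ℝ, 0 < μ ∧ μ < 1 / 4 ∧ Growth μ) ∧
    (∀ μ : ℝ, 0 < μ → Growth μ →
      (∀ θ : ℝ, 1 / 2 + 2 * μ ≤ θ → θ ≤ 1 → ∀ (n : ℕ) (a : Fin n → ℂ) (g : Fin n → ℝ),
        (∀ j, 0 < g j ∧ g j ≤ 2 * θ - 1) → (EdgeAt riemannZeta θ ↔ EdgeAt (comb a g) θ)) ∧
      (∀ θ : ℝ, 1 / 2 + 2 * μ ≤ θ → θ < 1 → ∀ c : ℂ, ‖c‖ = 1 →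
        (EdgeAt riemannZeta θ ↔ ∀ h : ℝ, θ - 1 / 2 < h → h ≤ 1 / 2 → OnLine c h))) ∧
    (∀ (n : ℕ) (a : Fin n → ℂ) (g : Fin n → ℝ), (∀ j, 0 < g j ∧ g j < 1) →
      ((∃ θ : ℝ, θ < 1 ∧ ∀ s : ℂ, θ < s.re → riemannZeta s ≠ 0) ↔
        ∃ θ : ℝ, θ < 1 ∧ {s : ℂ | θ < s.re ∧ comb a g s = 0}.Finite)) ∧
    (∀ c : ℂ, ‖c‖ = 1 → ((∃ θ : ℝ, θ < 1 ∧ ∀ s : ℂ, θ < s.re → riemannZeta s ≠ 0) ↔
      ∃ h : ℝ, 0 < h ∧ h < 1 / 2 ∧ OnLine c h)) :=
  Pool.Agent.W186.SX.main

end Pool.Agent.Results.MP_5a4862_nt.ShiftedXi
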