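import Pool.Agent.W186.SN.Fin

set_option autoImplicit false

/-!
# MP_5a4862_nt: narrowing of the zero strip of the de Bruijn-Newman family at the scale `exp (κ / t)`

`H t z` is the integral of `exp (t * u ^ 2) * Phi u * cos (z * u)` over `u > 0`; `H 0 z` is the
Riemann xi function at `1/2 + i z / 2` up to a constant, so all zeros of `H 0` are in `|Im z| < 1`, and
zeta has a zero-free half-plane `Re s > θ`, `θ < 1`, if and only if they are in a smaller strip. For
`t > 0` all zeros with `|Re z|` large enough in terms of `t` are real. We look at the zeros with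
`|Re z| ≥ exp (κ / t)` as `t` tends to `0`.

Unconditionally they are in `|Im z| ≤ 1 - c κ` for every `c < 1/2` and every small `κ`; they are
in `|Im z| ≤ 1 - c κ` for some `c > 1/2` and some `κ ≤ 1 / c` if and only if zeta has a zero-free
half-plane. So the constant `1/2` can be improved if and only if the answer to Q1 is positive.

Proof. Forward: the flow is a Gaussian average of the completed zeta function over a horizontal line
whose saddle point is at distance `κ / 4` to the right (in the variable `s`); van der Corput's bound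
`μ(σ) = o(1 - σ)` keeps the saddle dominant up to the edge. Backward: if the flow has no zeros to the
right of a line, its logarithmic derivative is `(1 + o(1)) (log T) / 2` there, and the inverse flow, a
Gaussian average over a vertical line shifted by `κ / 4` to the left, does not vanish.
-/

namespace Pool.Agent.Results.MP_5a4862_nt.StripNarrowing

/-- The de Bruijn-Newman kernel. -/
noncomputable def Phi (u : ℝ) : ℝ := ∑' n : ℕ,
  (2 * Real.pi ^ 2 * ((n : ℝ) + 1) ^ 4 * Real.exp (9 * u) -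
    3 * Real.pi * ((n : ℝ) + 1) ^ 2 * Real.exp (5 * u)) *
    Real.exp (-(Real.pi * ((n : ℝ) + 1) ^ 2 * Real.exp (4 * u)))

/-- The de Bruijn-Newman family: the integral of `exp (t u²) Φ(u) cos (z u)` over `u > 0`. -/
noncomputable def H (t : ℝ) (z : ℂ) : ℂ :=
  ∫ u in Set.Ioi (0 : ℝ), ((Real.exp (t * u ^ 2) * Phi u : ℝ) : ℂ) * Complex.cos (z * u)

/-- For all sufficiently small `t > 0`, all zeros `z` of `H t` with `|Re z| ≥ exp (κ / t)` satisfy
`|Im z| ≤ a`. -/
def Strip (κ a : ℝ) : Prop := ∃ t0 : ℝ, 0 < t0 ∧ ∀ t : ℝ, 0 < t → t < t0 → ∀ z : ℂ, H t z = 0 →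
  Real.exp (κ / t) ≤ |z.re| → |z.im| ≤ a

/-- For every `ε > 0` zeta has only finitely many zeros with real part greater than `θ + ε`. -/
def AlmostFree (θ : ℝ) : Prop := ∀ ε : ℝ, 0 < ε → {s : ℂ | θ + ε < s.re ∧ riemannZeta s = 0}.Finite

theorem result :
    (∀ c : ℝ, c < 1 / 2 → ∃ κ0 : ℝ, 0 < κ0 ∧ ∀ κ : ℝ, 0 < κ → κ < κ0 → Strip κ (1 - c * κ)) ∧
    (∀ θ : ℝ, 1 / 2 ≤ θ → AlmostFree θ → ∀ κ a : ℝ, 0 < κ → 0 < a → 2 * θ - 1 - κ / 4 < a → Strip κ a) ∧
    (∀ κ a : ℝ, 0 < κ → 0 ≤ a → Strip κ a → AlmostFree (1 / 2 + (a / 2 + κ / 4))) ∧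
    ((∃ θ : ℝ, θ < 1 ∧ ∀ s : ℂ, θ < s.re → riemannZeta s ≠ 0) ↔
      ∃ κ a : ℝ, 0 < κ ∧ 0 ≤ a ∧ a < 1 - κ / 2 ∧ Strip κ a) :=
  Pool.Agent.W186.SN.main

end Pool.Agent.Results.MP_5a4862_nt.StripNarrowing
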